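import Mathlib
import Pool.Agent.R776.MeanW

set_option autoImplicit false

open MeasureTheory Set Metric

namespace Pool.Agent.Results.MP_84aa88_gt.NotCanonical

/-- The Euclidean plane. -/
abbrev Plane := EuclideanSpace ℝ (Fin 2)

/-- Support function `h_K(u) = max {⟨y, u⟩ : y ∈ K}` of a compact set `K` in the plane. -/
noncomputable def supportFn (K : Set Plane) (u : Plane) : ℝ :=
  sSup ((fun y : Plane => @inner ℝ Plane _ y u) '' K)

/-- First intrinsic volume of a nonempty compact convex set in the plane, by Cauchy's formula: half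
of the perimeter, the perimeter being the integral of the support function over the unit circle with
respect to arc length (`volume.toSphere`). -/
noncomputable def V1 (K : Set Plane) : ℝ :=
  (1 / 2) * ∫ u : sphere (0 : Plane) 1, supportFn K u ∂(volume : Measure Plane).toSphere

/-- `K` is a nonempty compact convex subset of the plane. -/
def IsCompactConvex (K : Set Plane) : Prop := K.Nonempty ∧ IsCompact K ∧ Convex ℝ K

/-- There is a map of the nonempty compact convex subsets of the plane to the origin-symmetric ones
that is monotonic, fixes every origin-symmetric set and preserves the first intrinsic volume, but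
does not map some nondegenerate line segment to a line segment. -/
theorem result : ∃ D : Set Plane → Set Plane,
    (∀ K, IsCompactConvex K → IsCompactConvex (D K) ∧ -D K = D K) ∧
    (∀ K L, IsCompactConvex K → IsCompactConvex L → K ⊆ L → D K ⊆ D L) ∧
    (∀ K, IsCompactConvex K → -K = K → D K = K) ∧
    (∀ K, IsCompactConvex K → V1 (D K) = V1 K) ∧
    ∃ a b : Plane, a ≠ b ∧ ∀ c d : Plane, D (segment ℝ a b) ≠ segment ℝ c d := by
  obtain ⟨c0, hc0, hV⟩ := Pool.Agent.R776.MeanW.V_eq (n := 2) (by norm_num)
  have hsymm : ∀ K : Set Plane, -K = K → ∀ x ∈ K, -x ∈ K := by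
    intro K hK x hx
    rw [← hK]
    simpa using hx
  refine ⟨Pool.Agent.S13718.D, ?_, ?_, ?_, ?_, ?_⟩
  · rintro K ⟨hne, hK, hc⟩
    refine ⟨⟨Pool.Agent.S13718.D_nonempty hne, Pool.Agent.S13718.D_compact hK,
      Pool.Agent.S13718.D_convex hc⟩, ?_⟩
    ext x
    constructor
    · intro hx
      have := Pool.Agent.S13718.D_neg (K := K) (x := -x) hx
      simpa using this
    · intro hx
      exact Pool.Agent.S13718.D_neg hx
  · rintro K L ⟨hne, hK, hc⟩ ⟨hneL, hL, hcL⟩ h
    exact Pool.Agent.S13718.D_mono hK hne hL hcL h
  · rintro K ⟨hne, hK, hc⟩ hs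
    exact Pool.Agent.S13718.D_eq_of_symm hK hc hne (hsymm K hs)
  · rintro K ⟨hne, hK, hc⟩
    have h1 := Pool.Agent.S13718.V_D hK hne
    rw [hV, hV] at h1
    have h2 := mul_left_cancel₀ hc0.ne' h1
    unfold V1 supportFn
    unfold Pool.Agent.S13718.supp at h2
    rw [h2]
  · set a : Plane := !₂[1, 1] with ha
    set b : Plane := !₂[-1, 1] with hb
    have hab : a ≠ b := by
      intro h
      have := congrArg (fun v : Plane => v 0) h
      simp [ha, hb] at this
      norm_num at this
    refine ⟨a, b, hab, ?_⟩
    intro c d hcd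
    set K : Set Plane := segment ℝ a b with hKdef
    have haK : a ∈ K := left_mem_segment ℝ a b
    have hbK : b ∈ K := right_mem_segment ℝ a b
    have hK : IsCompact K := by
      rw [hKdef, segment_eq_image_lineMap]
      exact isCompact_Icc.image AffineMap.lineMap_continuous
    have hne : K.Nonempty := ⟨a, haK⟩
    have hlam : 0 < Pool.Agent.S13718.lam K :=
      Pool.Agent.S13718.lam_pos hK hne (Pool.Agent.S13718.V_pos hK haK hbK hab)
    have hmem : ∀ x ∈ K, (Pool.Agent.S13718.lam K * (1 / 2)) • x ∈ Pool.Agent.S13718.D K := by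
      intro x hx
      refine ⟨(1 / 2 : ℝ) • (x - 0), ⟨x, Pool.Agent.S13718.subset_cone0 K hx, 0,
        Pool.Agent.S13718.zero_mem_cone0 hne, rfl⟩, ?_⟩
      rw [sub_zero, smul_smul]
    have h0 : (0 : Plane) ∈ Pool.Agent.S13718.D K :=
      ⟨0, Pool.Agent.S13718.zero_mem_NN hne, by simp⟩
    have hA := hmem a haK
    have hB := hmem b hbK
    rw [hcd, segment_eq_image_lineMap] at hA hB h0
    obtain ⟨s, -, hs⟩ := hA
    obtain ⟨t, -, ht⟩ := hB
    obtain ⟨r, -, hr⟩ := h0
    rw [AffineMap.lineMap_apply_module'] at hs ht hr
    set l := Pool.Agent.S13718.lam K * (1 / 2) with hl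
    have hl0 : 0 < l := by positivity
    have e1 : (s - r) • (d - c) = l • a := by
      rw [sub_smul, ← hs]
      have : r • (d - c) = -c := by
        rw [eq_neg_iff_add_eq_zero]; exact hr
      rw [this]
      abel
    have e2 : (t - r) • (d - c) = l • b := by
      rw [sub_smul, ← ht]
      have : r • (d - c) = -c := by
        rw [eq_neg_iff_add_eq_zero]; exact hr
      rw [this]
      abel
    have e10 := congrArg (fun v : Plane => v 0) e1
    have e11 := congrArg (fun v : Plane => v 1) e1
    have e20 := congrArg (fun v : Plane => v 0) e2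
    have e21 := congrArg (fun v : Plane => v 1) e2
    simp [ha, hb] at e10 e11 e20 e21
    have hsr : s - r ≠ 0 := by
      intro h
      rw [h] at e10
      simp at e10
      linarith
    have htr : t - r ≠ 0 := by
      intro h
      rw [h] at e21
      simp at e21
      linarith
    have f1 : d 0 - c 0 = d 1 - c 1 := by
      have : (s - r) * (d 0 - c 0) = (s - r) * (d 1 - c 1) := by rw [e10, e11]
      exact mul_left_cancel₀ hsr this
    rw [f1, e21] at e20
    linarith

end Pool.Agent.Results.MP_84aa88_gt.NotCanonical
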